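import Pool.Agent.Run7.h894.LK.Stm
import Pool.Agent.N537.RS.Hardy

/-!
# LK/HDY (helper889): Hardy's inequality on the slices in the first variable
-/

set_option autoImplicit false

open MeasureTheory Set Filter Topology

namespace Run7.h889.LK

open Pool.Agent.Run7.H894.LK

noncomputable section

variable {m : ℕ}

/-- splitting off the first coordinate -/
def ev (m : ℕ) : (Fin (m + 1) → ℝ) ≃ᵐ ℝ × (Fin m → ℝ) :=
  MeasurableEquiv.piFinSuccAbove (fun _ : Fin (m + 1) => ℝ) 0

/-- the point with first coordinate `x` and the others `y` -/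
def cn (x : ℝ) (y : Fin m → ℝ) : Fin (m + 1) → ℝ := Fin.cons x y

lemma ev_symm (p : ℝ × (Fin m → ℝ)) : (ev m).symm p = cn p.1 p.2 := by
  show (Fin.insertNth 0 p.1 p.2 : Fin (m + 1) → ℝ) = (Fin.cons p.1 p.2 : Fin (m + 1) → ℝ)
  rw [Fin.insertNth_zero']

lemma mp (m : ℕ) : MeasurePreserving (ev m).symm
    (volume : Measure (ℝ × (Fin m → ℝ))) volume :=
  (volume_preserving_piFinSuccAbove (fun _ : Fin (m + 1) => ℝ) 0).symm

lemma int_iff {f : (Fin (m + 1) → ℝ) → ℝ} : Integrable f ↔
    Integrable (fun p : ℝ × (Fin m → ℝ) => f (cn p.1 p.2)) ((volume : Measure ℝ).prod volume) := by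
  rw [← (mp m).integrable_comp_emb (MeasurableEquiv.measurableEmbedding _),
    ← Measure.volume_eq_prod]
  have : (f ∘ (ev m).symm) = fun p : ℝ × (Fin m → ℝ) => f (cn p.1 p.2) := by
    funext p
    simp only [Function.comp, ev_symm]
  rw [this]

lemma int_eq (f : (Fin (m + 1) → ℝ) → ℝ) : ∫ z, f z =
    ∫ p : ℝ × (Fin m → ℝ), f (cn p.1 p.2) ∂((volume : Measure ℝ).prod volume) := by
  rw [← (mp m).integral_comp' f, ← Measure.volume_eq_prod]
  simp only [ev_symm]

lemma cn_zero (x : ℝ) (y : Fin m → ℝ) : cn x y 0 = x := by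
  simp [cn]

lemma hasDerivAt_cn (x : ℝ) (y : Fin m → ℝ) :
    HasDerivAt (fun t => cn t y) (Pi.single 0 1 : Fin (m + 1) → ℝ) x := by
  rw [hasDerivAt_pi]
  intro i
  refine Fin.cases ?_ (fun j => ?_) i
  · simp only [cn, Fin.cons_zero, Pi.single_eq_same]
    exact hasDerivAt_id x
  · simp only [cn, Fin.cons_succ]
    rw [Pi.single_eq_of_ne (Fin.succ_ne_zero j)]
    exact hasDerivAt_const x _

lemma continuous_cn : Continuous fun p : ℝ × (Fin m → ℝ) => cn p.1 p.2 := by
  refine continuous_pi fun i => ?_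
  refine Fin.cases ?_ (fun j => ?_) i
  · simp only [cn, Fin.cons_zero]
    exact continuous_fst
  · simp only [cn, Fin.cons_succ]
    exact (continuous_apply j).comp continuous_snd

lemma continuous_pdc {φ : (Fin m → ℝ) → ℂ} (h : ContDiff ℝ 1 φ) (j : Fin m) :
    Continuous (pdc j φ) := by
  unfold pdc
  exact (h.continuous_fderiv (by norm_num)).clm_apply continuous_const

lemma slice_deriv {φ : (Fin (m + 1) → ℝ) → ℂ} (h : ContDiff ℝ 1 φ) (x : ℝ) (y : Fin m → ℝ) :
    HasDerivAt (fun t => φ (cn t y)) (pdc 0 φ (cn x y)) x := by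
  have h1 : HasFDerivAt φ (fderiv ℝ φ (cn x y)) (cn x y) :=
    (h.differentiable (by norm_num) _).hasFDerivAt
  exact h1.comp_hasDerivAt x (hasDerivAt_cn x y)

/-- LK/HDY -/
theorem t_HDY : S_HDY := by
  intro m a μ ha hμ φ hφ h0 hE
  have hc : Continuous φ := hφ.continuous
  have hp0 : Continuous (pdc 0 φ) := continuous_pdc hφ 0
  have hpj : ∀ j : Fin m, Continuous (pdc j.succ φ) := fun j => continuous_pdc hφ j.succ
  set G : (Fin (m + 1) → ℝ) → ℝ := fun z => ‖pdc 0 φ z - (a : ℂ) * φ z‖ ^ 2 + μ * ‖φ z‖ ^ 2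
    with hG
  set K : (Fin (m + 1) → ℝ) → ℝ := fun z =>
    Real.exp (2 * z 0) * ∑ j : Fin m, ‖pdc j.succ φ z‖ ^ 2 with hK
  set H : (Fin (m + 1) → ℝ) → ℝ := fun z => ‖pdc 0 φ z‖ ^ 2 + (a ^ 2 + μ) * ‖φ z‖ ^ 2 with hH
  have hGc : Continuous G := by
    have : Continuous fun z => pdc 0 φ z - (a : ℂ) * φ z := hp0.sub (continuous_const.mul hc)
    exact (this.norm.pow 2).add (continuous_const.mul (hc.norm.pow 2))
  have hexp : Continuous fun z : Fin (m + 1) → ℝ => Real.exp (2 * z 0) := by fun_prop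
  have hKc : Continuous K :=
    hexp.mul (continuous_finsetSum _ fun j _ => (hpj j).norm.pow 2)
  have hHc : Continuous H := (hp0.norm.pow 2).add (continuous_const.mul (hc.norm.pow 2))
  have hG0 : ∀ z, 0 ≤ G z := fun z => by simp only [hG]; positivity
  have hK0 : ∀ z, 0 ≤ K z := fun z => by
    simp only [hK]
    exact mul_nonneg (Real.exp_pos _).le (Finset.sum_nonneg fun j _ => by positivity)
  have hH0 : ∀ z, 0 ≤ H z := fun z => by simp only [hH]; positivity
  have hGi : Integrable G := by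
    refine Integrable.mono' hE hGc.aestronglyMeasurable (Eventually.of_forall fun z => ?_)
    rw [Real.norm_of_nonneg (hG0 z)]
    have := hK0 z
    simp only [hG, hK] at this ⊢
    linarith
  have hKi : Integrable K := by
    refine Integrable.mono' hE hKc.aestronglyMeasurable (Eventually.of_forall fun z => ?_)
    rw [Real.norm_of_nonneg (hK0 z)]
    have := hG0 z
    simp only [hG, hK] at this ⊢
    linarith
  -- Fubini
  have hGp := int_iff.1 hGi
  have h0p := int_iff.1 h0
  have hGy := hGp.prod_left_ae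
  have h0y := h0p.prod_left_ae
  have hsl : ∀ᵐ y : Fin m → ℝ, Integrable (fun t => H (cn t y)) ∧
      ∫ t, H (cn t y) ≤ ∫ t, G (cn t y) := by
    filter_upwards [hGy, h0y] with y hy1 hy2
    have hcs : Continuous fun t : ℝ => cn t y :=
      continuous_cn.comp (continuous_id.prodMk continuous_const)
    have key := Pool.Agent.N537.RS.t_HARDY a μ ha hμ (fun t => φ (cn t y))
      (fun t => pdc 0 φ (cn t y)) (fun t => slice_deriv hφ t y) (hp0.comp hcs)
      (by simpa only [cn_zero] using hy2) (by simpa only [hG] using hy1)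
    obtain ⟨k1, k2⟩ := key
    have e : ∫ t, H (cn t y) = (∫ t, ‖pdc 0 φ (cn t y)‖ ^ 2) +
        (a ^ 2 + μ) * ∫ t, ‖φ (cn t y)‖ ^ 2 := by
      simp only [hH]
      rw [integral_add k1.i1 (k1.i0.const_mul _), integral_const_mul]
    refine ⟨?_, ?_⟩
    · simp only [hH]
      exact k1.i1.add (k1.i0.const_mul _)
    · rw [e]
      simpa only [hG] using k2
  have hHp : Integrable (fun p : ℝ × (Fin m → ℝ) => H (cn p.1 p.2))
      ((volume : Measure ℝ).prod volume) := by
    have hm : AEStronglyMeasurable (fun p : ℝ × (Fin m → ℝ) => H (cn p.1 p.2))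
        ((volume : Measure ℝ).prod volume) := (hHc.comp continuous_cn).aestronglyMeasurable
    rw [integrable_prod_iff' hm]
    refine ⟨hsl.mono fun y hy => hy.1, ?_⟩
    refine Integrable.mono' hGp.integral_prod_right ?_ ?_
    · exact hm.norm.prod_swap.integral_prod_right'
    · filter_upwards [hsl] with y hy
      have h1 : ∫ t, ‖H (cn t y)‖ = ∫ t, H (cn t y) :=
        integral_congr_ae (Eventually.of_forall fun t => Real.norm_of_nonneg (hH0 _))
      rw [h1, Real.norm_of_nonneg (integral_nonneg fun t => hH0 _)]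
      exact hy.2
  have hHi : Integrable H := int_iff.2 hHp
  have hHG : ∫ z, H z ≤ ∫ z, G z := by
    rw [int_eq H, int_eq G, integral_prod_symm _ hHp, integral_prod_symm _ hGp]
    exact integral_mono_ae hHp.integral_prod_right hGp.integral_prod_right
      (hsl.mono fun y hy => hy.2)
  refine ⟨⟨hφ, h0, ?_, ?_, ?_⟩, ?_⟩
  · refine Integrable.mono' (hHi.const_mul (1 / a ^ 2)) (hc.norm.pow 2).aestronglyMeasurable
      (Eventually.of_forall fun z => ?_)
    rw [Real.norm_of_nonneg (by positivity), one_div, inv_mul_eq_div, le_div_iff₀ (by positivity)]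
    simp only [hH]
    have h1 : 0 ≤ ‖pdc 0 φ z‖ ^ 2 := by positivity
    have h2 : 0 ≤ μ * ‖φ z‖ ^ 2 := by positivity
    nlinarith
  · refine Integrable.mono' hHi (hp0.norm.pow 2).aestronglyMeasurable
      (Eventually.of_forall fun z => ?_)
    rw [Real.norm_of_nonneg (by positivity)]
    simp only [hH]
    have : 0 ≤ (a ^ 2 + μ) * ‖φ z‖ ^ 2 := by positivity
    linarith
  · intro j
    refine Integrable.mono' hKi (hexp.mul ((hpj j).norm.pow 2)).aestronglyMeasurable
      (Eventually.of_forall fun z => ?_)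
    rw [Real.norm_of_nonneg (by positivity)]
    simp only [hK]
    exact mul_le_mul_of_nonneg_left (Finset.single_le_sum
      (f := fun j : Fin m => ‖pdc j.succ φ z‖ ^ 2) (fun i _ => by positivity)
      (Finset.mem_univ j)) (Real.exp_pos _).le
  · have e1 : (∫ z, (‖pdc 0 φ z‖ ^ 2 + (a ^ 2 + μ) * ‖φ z‖ ^ 2 +
        Real.exp (2 * z 0) * ∑ j : Fin m, ‖pdc j.succ φ z‖ ^ 2)) = (∫ z, H z) + ∫ z, K z :=
      integral_add hHi hKi
    have e2 : (∫ z, (‖pdc 0 φ z - (a : ℂ) * φ z‖ ^ 2 + μ * ‖φ z‖ ^ 2 +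
        Real.exp (2 * z 0) * ∑ j : Fin m, ‖pdc j.succ φ z‖ ^ 2)) = (∫ z, G z) + ∫ z, K z :=
      integral_add hGi hKi
    rw [e1, e2]
    linarith

end

end Run7.h889.LK
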